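import Pool.Agent.helper57.Final

/-!
# Bounded-degree coboundary expanders with permutation coefficients

There are an integer `k`, a constant `lam > 0` and an infinite sequence of connected finite
polygonal complexes, with strictly increasing numbers of vertices and all vertex degrees at most
`k`, whose Cheeger constants `h^B_0(X, Sym)` and `h^B_1(X, Sym)` are at least `lam`.

Construction: the vertex set is `(ZMod n) x (ZMod n)`; the edges are two parallel copies (types `a`
and `b`) of the Schreier graph of the five permutations `id`, `(x+1,y)`, `(x,y+1)`, `(x+2y,y)`,
`(x,y+2x)`, which is an expander (with an elementary ping-pong proof); the polygons are all closed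
paths of the form (positive `a`-word) (positive `b`-word) inverse with word lengths `(L,L)`,
`(L+1,L)`, `(L,L+1)`, where `L` is a large constant times `log n`.
-/

set_option autoImplicit false

namespace Pool.Agent.Results.MP_d4a15d_co.PermCoboundaryExpanders

open Pool.Agent.H57

/-- There are bounded-degree coboundary expanders with permutation coefficients. Moreover the
polygons of the examples have perimeter at most `C log |V|`, the weights of the vertices and edges
are uniform up to constants, and distinct polygons are attached along distinct cycles. -/
theorem result :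
    ∃ (k : ℕ) (lam C : ℝ), 0 < lam ∧ ∃ X : ℕ → PolygonalComplex,
      StrictMono (fun m => Fintype.card (X m).V) ∧
      ∀ m, (X m).Connected ∧ (∀ v, (X m).degree v ≤ k) ∧
        ENNReal.ofReal lam ≤ (X m).hB0 ∧ ENNReal.ofReal lam ≤ (X m).hB1 ∧
        (∀ f, (((X m).path f).length : ℝ) ≤ C * Real.log (Fintype.card (X m).V)) ∧
        (∀ v, lam ≤ Fintype.card (X m).V * (X m).mu0 v ∧ Fintype.card (X m).V * (X m).mu0 v ≤ C) ∧
        (∀ e, lam ≤ Fintype.card (X m).E * (X m).mu1 e ∧ Fintype.card (X m).E * (X m).mu1 e ≤ C) ∧
        (∀ f f' : (X m).F, f ≠ f' → ¬ ((X m).path f ~r (X m).path f') ∧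
          ¬ ((X m).path f ~r (((X m).path f').map (X m).rev).reverse)) :=
  main_theorem

end Pool.Agent.Results.MP_d4a15d_co.PermCoboundaryExpanders
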